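import Pool.Agent.N988.EA.Stm

/-!
# The numerical chain (88 explicit rational steps)
-/

set_option autoImplicit false

namespace Pool.Agent.N433.EA

open Pool.Agent.N988.EA Finset

/-- `10 ^ 6 * La (a / 1000) k` -/
def Ln (a k : ℕ) : ℕ :=
  (1000 - (k - 1) * a) ^ 2 + (1000 - (k + 1) * a) ^ 2 - 2 * (1000 - k * a) ^ 2

/-- `10 ^ 24 * Phi N (a / 1000)` -/
def phiN (N a : ℕ) : ℕ :=
  ∑ x ∈ Icc 1 (2 * N), (∑ k ∈ Icc 1 N, ∑ l ∈ Icc 1 N, Ln a k * Ln a l * HH x k l) ^ 2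

/-- the chain, in thousandths -/
def chain : List ℕ := [501, 494, 487, 481, 475, 470, 465, 460, 455, 450, 444, 438, 432, 426, 419,
  412, 404, 396, 387, 378, 368, 358, 348, 338, 328, 319, 310, 302, 294, 285, 276, 267, 258, 250,
  242, 234, 226, 219, 212, 205, 198, 191, 184, 178, 172, 166, 160, 154, 149, 144, 139, 134, 129,
  124, 120, 116, 112, 108, 104, 100, 96, 93, 90, 87, 84, 81, 78, 75, 72, 70, 68, 66, 64, 62, 60,
  58, 56, 54, 52, 50, 48, 47, 46, 45, 44, 43, 42, 41, 40]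

/-- the numerators -/
def av (i : ℕ) : ℕ := chain.getD i 0

/-- the number of the terms -/
def nv (i : ℕ) : ℕ := (999 + av i) / av i

theorem max_eq (a j : ℕ) :
    max 0 (1 - (j : ℝ) * ((a : ℝ) / 1000)) = ((1000 - j * a : ℕ) : ℝ) / 1000 := by
  rcases le_total (j * a) 1000 with h | h
  · have h1 : ((j * a : ℕ) : ℝ) ≤ 1000 := by exact_mod_cast h
    rw [Nat.cast_sub h]
    push_cast at h1 ⊢
    rw [max_eq_right]
    · ring
    · linarith
  · have h1 : (1000 : ℝ) ≤ ((j * a : ℕ) : ℝ) := by exact_mod_cast h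
    rw [Nat.sub_eq_zero_of_le h]
    push_cast at h1 ⊢
    rw [max_eq_left]
    · ring
    · linarith

theorem conv (a j : ℕ) :
    2 * (1000 - (j + 1) * a) ^ 2 ≤ (1000 - j * a) ^ 2 + (1000 - (j + 1 + 1) * a) ^ 2 := by
  obtain ⟨u, hu⟩ : ∃ u, u = 1000 - j * a := ⟨_, rfl⟩
  obtain ⟨v, hv⟩ : ∃ v, v = 1000 - (j + 1) * a := ⟨_, rfl⟩
  obtain ⟨w, hw⟩ : ∃ w, w = 1000 - (j + 1 + 1) * a := ⟨_, rfl⟩
  have h : 2 * v ≤ u + w := by
    rw [hu, hv, hw, add_mul (j + 1), add_mul j]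
    omega
  rw [← hu, ← hv, ← hw]
  zify at h ⊢
  have hv0 : (0 : ℤ) ≤ v := Int.natCast_nonneg v
  nlinarith [sq_nonneg ((u : ℤ) - w), mul_self_nonneg ((u : ℤ) + w - 2 * v)]

theorem La_eq (a k : ℕ) (hk : 1 ≤ k) : La ((a : ℝ) / 1000) k = (Ln a k : ℝ) / 10 ^ 6 := by
  obtain ⟨j, rfl⟩ := Nat.exists_eq_add_of_le' hk
  unfold La FF Ln
  rw [max_eq, max_eq, max_eq, Nat.add_sub_cancel, Nat.cast_sub (conv a j)]
  push_cast
  ring

theorem Phi_eq (N a : ℕ) : Phi N ((a : ℝ) / 1000) = (phiN N a : ℝ) / 10 ^ 24 := by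
  unfold Phi phiN
  push_cast
  rw [Finset.sum_div]
  refine Finset.sum_congr rfl fun x _ => ?_
  have h1 : ∑ k ∈ Icc 1 N, ∑ l ∈ Icc 1 N, La ((a : ℝ) / 1000) k * La ((a : ℝ) / 1000) l * HH x k l
      = (∑ k ∈ Icc 1 N, ∑ l ∈ Icc 1 N, (Ln a k : ℝ) * Ln a l * HH x k l) / 10 ^ 12 := by
    rw [Finset.sum_div]
    refine Finset.sum_congr rfl fun k hk => ?_
    rw [Finset.sum_div]
    refine Finset.sum_congr rfl fun l hl => ?_
    rw [La_eq a k (Finset.mem_Icc.1 hk).1, La_eq a l (Finset.mem_Icc.1 hl).1]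
    ring
  rw [h1, div_pow]
  norm_num

theorem pos : ∀ i ≤ 88, 0 < av i := by decide +kernel

theorem one_le : ∀ i < 88, 1000 ≤ nv i * av i := by decide +kernel

theorem steps : ∀ i < 88, phiN (nv i) (av i) < av (i + 1) * 10 ^ 21 := by decide +kernel

theorem t_NUM : S_NUM := by
  refine ⟨88, fun i => (av i : ℝ) / 1000, nv, ?_, ?_, ?_, ?_⟩
  · show (av 0 : ℝ) / 1000 = 501 / 1000
    have : av 0 = 501 := by decide +kernel
    rw [this]
    norm_num
  · show (av 88 : ℝ) / 1000 ≤ 1 / 25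
    have : av 88 = 40 := by decide +kernel
    rw [this]
    norm_num
  · intro i hi
    have h1 : (0 : ℝ) < (av i : ℝ) := by exact_mod_cast pos i hi
    show (0 : ℝ) < (av i : ℝ) / 1000
    positivity
  · intro i hi
    constructor
    · have h1 : (1000 : ℝ) ≤ (nv i : ℝ) * (av i : ℝ) := by exact_mod_cast one_le i hi
      show 1 ≤ (nv i : ℝ) * ((av i : ℝ) / 1000)
      rw [← mul_div_assoc, le_div_iff₀ (by norm_num)]
      linarith
    · show Phi (nv i) ((av i : ℝ) / 1000) < (av (i + 1) : ℝ) / 1000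
      rw [Phi_eq, div_lt_div_iff₀ (by norm_num) (by norm_num)]
      have h1 : ((phiN (nv i) (av i) : ℕ) : ℝ) < (av (i + 1) : ℝ) * 10 ^ 21 := by
        exact_mod_cast steps i hi
      nlinarith [h1]

end Pool.Agent.N433.EA
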