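import Pool.Agent.N367.LE.Stm

/-! The genus character for discriminant `n ^ 2 + 4 = p q` and class number two. -/

namespace Pool.Agent.N433.LE

open H419R2 Pool.Agent.N367.LE

theorem absNorm_span' {R m : ℤ} [IsDedekindDomain (QA R m)] (z : QA R m) :
    Ideal.absNorm (Ideal.span {z}) = (QuadraticAlgebra.norm z).natAbs := by
  rw [Ideal.absNorm_span_singleton, algebra_norm_eq]

theorem norm_sq (n : ℤ) (z : QA 1 n) :
    4 * QuadraticAlgebra.norm z = (2 * z.re + n * z.im) ^ 2 - (n ^ 2 + 4) * z.im ^ 2 := by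
  rw [norm_eq]; ring

theorem jac_neg_one {p : ℕ} (hp4 : p % 4 = 1) : jacobiSym (-1) p = 1 := by
  rw [jacobiSym.at_neg_one (Nat.odd_iff.mpr (by omega)), ZMod.χ₄_nat_one_mod_four hp4]

theorem jac_natAbs {p : ℕ} (hp4 : p % 4 = 1) (N : ℤ) :
    jacobiSym (N.natAbs : ℤ) p = jacobiSym N p := by
  rcases Int.natAbs_eq N with h | h
  · rw [← h]
  · have : jacobiSym N p = jacobiSym (-1 * (N.natAbs : ℤ)) p := by
      congr 1; rw [neg_one_mul]; exact h
    rw [this, jacobiSym.mul_left, jac_neg_one hp4, one_mul]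

/-- principal ideals of norm prime to `p` have norm a residue -/
theorem first {n p : ℕ} (hp : p.Prime) (hp4 : p % 4 = 1) (hpd : p ∣ n ^ 2 + 4)
    [IsDedekindDomain (QA 1 (n : ℤ))] (I : Ideal (QA 1 (n : ℤ))) (hI : ¬ p ∣ Ideal.absNorm I)
    (h : I.IsPrincipal) : jacobiSym (Ideal.absNorm I : ℤ) p = 1 := by
  obtain ⟨z, hz⟩ := h.principal
  have hz' : I = Ideal.span {z} := hz
  subst hz'
  rw [absNorm_span'] at hI ⊢
  rw [jac_natAbs hp4]
  set N : ℤ := QuadraticAlgebra.norm z with hN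
  have hpN : ¬ (p : ℤ) ∣ N := by
    intro hd
    exact hI (Int.natCast_dvd.mp hd)
  have hpZ : Prime (p : ℤ) := Nat.prime_iff_prime_int.mp hp
  have h4 : ¬ (p : ℤ) ∣ 4 := by
    intro hd
    have : p ∣ 4 := by exact_mod_cast hd
    have := Nat.le_of_dvd (by norm_num) this
    have h5 : 2 ≤ p := hp.two_le
    interval_cases p <;> omega
  have hsq := norm_sq (n : ℤ) z
  rw [← hN] at hsq
  set s : ℤ := 2 * z.re + n * z.im with hs
  have hpd' : (p : ℤ) ∣ (n : ℤ) ^ 2 + 4 := by exact_mod_cast hpd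
  have hcong : (p : ℤ) ∣ s ^ 2 - 4 * N := by
    rw [hsq]
    have : s ^ 2 - (s ^ 2 - ((n : ℤ) ^ 2 + 4) * z.im ^ 2) = ((n : ℤ) ^ 2 + 4) * z.im ^ 2 := by ring
    rw [this]
    exact Dvd.dvd.mul_right hpd' _
  have hps : ¬ (p : ℤ) ∣ s := by
    intro hd
    have h1 : (p : ℤ) ∣ s ^ 2 := dvd_pow hd (by norm_num)
    have h2 : (p : ℤ) ∣ 4 * N := by
      have := dvd_sub h1 hcong
      simpa using this
    rcases hpZ.dvd_or_dvd h2 with h | h
    · exact h4 h
    · exact hpN h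
  have gcd1 : ∀ a : ℤ, ¬ (p : ℤ) ∣ a → a.gcd p = 1 := by
    intro a ha
    have h1 : IsCoprime (p : ℤ) a := (hpZ.irreducible.coprime_iff_not_dvd).mpr ha
    rw [Int.gcd_comm]
    exact Int.isCoprime_iff_gcd_eq_one.mp h1
  have e1 : jacobiSym (4 * N) p = jacobiSym (s ^ 2) p := by
    apply jacobiSym.mod_left'
    exact (Int.modEq_iff_dvd.mpr hcong : 4 * N ≡ s ^ 2 [ZMOD (p : ℤ)])
  rw [jacobiSym.sq_one' (gcd1 s hps), jacobiSym.mul_left] at e1
  have e2 : jacobiSym 4 p = 1 := by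
    have h2 : ¬ (p : ℤ) ∣ 2 := fun hd => h4 (by
      have : (4 : ℤ) = 2 * 2 := by norm_num
      rw [this]; exact Dvd.dvd.mul_right hd _)
    have := jacobiSym.sq_one' (gcd1 2 h2)
    norm_num at this
    exact this
  rw [e2, one_mul] at e1
  exact e1

theorem exists_nonres {p : ℕ} (hp : p.Prime) (hp4 : p % 4 = 1) :
    ∃ a : ℕ, jacobiSym (a : ℤ) p = -1 := by
  have : Fact p.Prime := ⟨hp⟩
  obtain ⟨a, ha⟩ := FiniteField.exists_nonsquare (F := ZMod p) (by
    rw [ZMod.ringChar_zmod_n]; omega)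
  refine ⟨a.val, ?_⟩
  rw [← jacobiSym.legendreSym.to_jacobiSym, legendreSym.eq_neg_one_iff]
  simpa using ha

theorem exists_prime {p q : ℕ} (hp : p.Prime) (hq : q.Prime) (hpq : p ≠ q) (hp4 : p % 4 = 1)
    (hq4 : q % 4 = 1) : ∃ r : ℕ, r.Prime ∧ r ≠ 2 ∧ r ≠ p ∧ jacobiSym (r : ℤ) p = -1 ∧
      jacobiSym (r : ℤ) q = -1 := by
  obtain ⟨a, ha⟩ := exists_nonres hp hp4
  obtain ⟨b, hb⟩ := exists_nonres hq hq4
  have hco : p.Coprime q := (Nat.coprime_primes hp hq).mpr hpq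
  obtain ⟨k, hk1, hk2⟩ := Nat.chineseRemainder hco a b
  have jmod : ∀ (x y t : ℕ), x ≡ y [MOD t] → jacobiSym (x : ℤ) t = jacobiSym (y : ℤ) t := by
    intro x y t h
    apply jacobiSym.mod_left'
    exact_mod_cast h
  have hkp : jacobiSym (k : ℤ) p = -1 := by rw [jmod _ _ _ hk1, ha]
  have hkq : jacobiSym (k : ℤ) q = -1 := by rw [jmod _ _ _ hk2, hb]
  have : NeZero p := ⟨hp.ne_zero⟩
  have : NeZero q := ⟨hq.ne_zero⟩
  have c1 : k.Coprime p := by
    by_contra hc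
    have h1 : jacobiSym (k : ℤ) p = 0 := jacobiSym.eq_zero_iff_not_coprime.mpr (by
      rw [Int.gcd_natCast_natCast]; exact hc)
    rw [hkp] at h1
    norm_num at h1
  have c2 : k.Coprime q := by
    by_contra hc
    have h1 : jacobiSym (k : ℤ) q = 0 := jacobiSym.eq_zero_iff_not_coprime.mpr (by
      rw [Int.gcd_natCast_natCast]; exact hc)
    rw [hkq] at h1
    norm_num at h1
  obtain ⟨r, hr, hrp, hrk⟩ := Nat.forall_exists_prime_gt_and_modEq (p + 2)
    (q := p * q) (a := k) (Nat.mul_ne_zero hp.ne_zero hq.ne_zero) (Nat.Coprime.mul_right c1 c2)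
  refine ⟨r, hrp, by omega, by omega, ?_, ?_⟩
  · rw [jmod r k p (hrk.of_mul_right q), hkp]
  · rw [jmod r k q (hrk.of_mul_left p), hkq]

theorem g2 (hGR : S_GR) : S_G2 := by
  intro n p q hn hp hq hpq hp4 hq4 hD hH2 _ I hI0 hpI
  have hpd : p ∣ n ^ 2 + 4 := by rw [hD]; exact Dvd.intro _ rfl
  refine ⟨fun h => first hp hp4 hpd I hpI h, fun hj => ?_⟩
  by_contra hnp
  obtain ⟨r, hr, hr2, hrp, hrjp, hrjq⟩ := exists_prime hp hq hpq hp4 hq4
  have hrodd : Odd r := hr.odd_of_ne_two hr2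
  have hJD : jacobiSym ((n : ℤ) ^ 2 + 4) r = 1 := by
    have : ((n : ℤ) ^ 2 + 4) = (p : ℤ) * (q : ℤ) := by exact_mod_cast hD
    rw [this, jacobiSym.mul_left, jacobiSym.quadratic_reciprocity_one_mod_four hp4 hrodd,
      jacobiSym.quadratic_reciprocity_one_mod_four hq4 hrodd, hrjp, hrjq]
    norm_num
  obtain ⟨J, hJn, -⟩ := (hGR n hn r hr hr2).1 hJD
  have hJ0 : J ≠ ⊥ := by
    rintro rfl
    rw [Ideal.absNorm_bot] at hJn
    exact hr.ne_zero hJn.symm
  have hpr : ¬ p ∣ r := fun h => hrp ((Nat.prime_dvd_prime_iff_eq hp hr).mp h).symm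
  have hJnp : ¬ J.IsPrincipal := by
    intro h
    have := first hp hp4 hpd J (by rw [hJn]; exact hpr) h
    rw [hJn, hrjp] at this
    norm_num at this
  have hIJ := hH2.mp I J hI0 hJ0 hnp hJnp
  have hmul : Ideal.absNorm (I * J) = Ideal.absNorm I * r := by rw [map_mul, hJn]
  have h3 := first hp hp4 hpd (I * J) (by
    rw [hmul]
    intro h
    rcases hp.dvd_mul.mp h with h | h
    · exact hpI h
    · exact hpr h) hIJ
  rw [hmul] at h3
  push_cast at h3
  rw [jacobiSym.mul_left, hj, hrjp] at h3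
  norm_num at h3

end Pool.Agent.N433.LE
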