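import Pool.Agent.N906.KG.Stm

/-!
# Leaf KG/REDK (helper906): the minimal tuple of ideals with a given gain (helper433)
-/

set_option autoImplicit false

namespace Pool.Agent.N433.KG

open NumberField IsDedekindDomain Finset Filter Topology Pool.Agent.H691R3 Pool.Agent.W223.AK
open Pool.Agent.N906.NT (Cx cst)
open Pool.Agent.N906.KG

section

variable {K : Type} [Field K] [NumberField K] {n : ℕ}

theorem mem_sp (D : Fin n → Idl K) (v : Pr K) : v ∈ sp D ↔ (∑ i, D i v) ≠ 0 := by
  classical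
  unfold sp
  rw [Finset.mem_biUnion]
  constructor
  · rintro ⟨i, -, hi⟩ h
    rw [Finset.sum_eq_zero_iff] at h
    exact (Finsupp.mem_support_iff.1 hi) (h i (mem_univ i))
  · intro h
    obtain ⟨i, -, hne⟩ := Finset.exists_ne_zero_of_sum_ne_zero h
    exact ⟨i, mem_univ i, Finsupp.mem_support_iff.2 hne⟩

/-- the gain as a sum over the primes -/
theorem gl_eq (D : Fin n → Idl K) (W : Finset (Pr K)) (hW : sp D ⊆ W) :
    gl D = ∑ v ∈ W, (((∑ i, D i v) - 1 : ℕ) : ℝ) * Real.log (Nv v) := by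
  classical
  have h1 : tl D = ∑ v ∈ W, ((∑ i, D i v : ℕ) : ℝ) * Real.log (Nv v) := by
    unfold tl len
    have h2 : ∀ i : Fin n, ∑ v ∈ (D i).support, (D i v : ℝ) * Real.log (Nv v) =
        ∑ v ∈ W, (D i v : ℝ) * Real.log (Nv v) := by
      intro i
      apply Finset.sum_subset
      · intro v hv
        apply hW
        rw [mem_sp]
        intro h
        rw [Finset.sum_eq_zero_iff] at h
        exact (Finsupp.mem_support_iff.1 hv) (h i (mem_univ i))
      · intro v _ hv
        rw [Finsupp.notMem_support_iff.1 hv]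
        simp
    rw [Finset.sum_congr rfl fun i _ => h2 i, Finset.sum_comm]
    refine Finset.sum_congr rfl fun v _ => ?_
    rw [← Finset.sum_mul]
    push_cast
    rfl
  have h3 : tr D = ∑ v ∈ W, if (∑ i, D i v) ≠ 0 then Real.log (Nv v) else 0 := by
    unfold tr
    rw [← Finset.sum_filter]
    refine Finset.sum_congr ?_ fun _ _ => rfl
    ext v
    rw [mem_filter, mem_sp]
    exact ⟨fun h => ⟨hW ((mem_sp D v).2 h), h⟩, fun h => h.2⟩
  unfold gl
  rw [h1, h3, ← Finset.sum_sub_distrib]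
  refine Finset.sum_congr rfl fun v _ => ?_
  by_cases h : (∑ i, D i v) = 0
  · rw [h]
    simp
  · rw [if_pos h, Nat.cast_sub (by omega)]
    push_cast
    ring

/-- lowering one exponent -/
theorem step {Δ : Finset (Finset (Fin n))} {r t : ℕ} (hC : Cx Δ r t) {D : Fin n → Idl K}
    (hD : Tp Δ D) {W : Finset (Pr K)} (hW : sp D ⊆ W) {v : Pr K} (hv : v ∈ sp D) :
    ∃ D' : Fin n → Idl K, (∀ i, D' i ≤ D i) ∧ Tp Δ D' ∧
      (∑ w ∈ W, ∑ i, D' i w) < ∑ w ∈ W, ∑ i, D i w ∧
      ((∑ i, D i v) = 1 → gl D' = gl D) ∧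
      ((∑ i, D i v) ≠ 1 → gl D' = gl D - Real.log (Nv v)) := by
  classical
  have hv0 := (mem_sp D v).1 hv
  obtain ⟨i, -, hi⟩ := Finset.exists_ne_zero_of_sum_ne_zero hv0
  set D' : Fin n → Idl K := fun k => if k = i then D i - Finsupp.single v 1 else D k with hD'
  have f1 : ∀ k w, D' k w + (if k = i ∧ w = v then 1 else 0) = D k w := by
    intro k w
    by_cases hk : k = i
    · subst hk
      simp only [hD', if_true, Finsupp.tsub_apply, true_and]
      by_cases hw : w = v
      · subst hw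
        rw [if_pos rfl, Finsupp.single_eq_same]
        omega
      · rw [if_neg hw, Finsupp.single_eq_of_ne hw]
        simp
    · simp only [hD', if_neg hk]
      rw [if_neg fun h => hk h.1, add_zero]
  have hle : ∀ k, D' k ≤ D k := by
    intro k w
    have := f1 k w
    omega
  have f2 : ∀ w, (∑ k, D' k w) + (if w = v then 1 else 0) = ∑ k, D k w := by
    intro w
    have h1 : ∑ k : Fin n, (if k = i ∧ w = v then 1 else 0) = (if w = v then 1 else 0 : ℕ) := by
      by_cases hw : w = v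
      · simp [hw]
      · simp [hw]
    rw [← h1, ← Finset.sum_add_distrib]
    exact Finset.sum_congr rfl fun k _ => f1 k w
  have hspD' : sp D' ⊆ W := by
    intro w hw
    apply hW
    rw [mem_sp] at hw ⊢
    have := f2 w
    omega
  have hvW : v ∈ W := hW hv
  have hgl : gl D' = gl D - ((((∑ i, D i v) - 1 : ℕ) : ℝ) -
      (((∑ i, D i v) - 1 - 1 : ℕ) : ℝ)) * Real.log (Nv v) := by
    have h1 : gl D - gl D' = ((((∑ i, D i v) - 1 : ℕ) : ℝ) -
      (((∑ i, D i v) - 1 - 1 : ℕ) : ℝ)) * Real.log (Nv v) := by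
      rw [gl_eq D W hW, gl_eq D' W hspD', ← Finset.sum_sub_distrib,
        Finset.sum_eq_single_of_mem v hvW]
      · have h2 := f2 v
        rw [if_pos rfl] at h2
        have h3 : (∑ k, D' k v) = (∑ i, D i v) - 1 := by omega
        rw [h3]
        ring
      · intro w _ hw
        have h2 := f2 w
        rw [if_neg hw, add_zero] at h2
        rw [h2, sub_self]
    linarith
  refine ⟨D', hle, ?_, ?_, ?_, ?_⟩
  · intro w
    refine hC.2.2.2.1 _ (hD w) _ ?_
    intro k hk
    rw [mem_filter] at hk ⊢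
    have := f1 k w
    exact ⟨mem_univ _, by omega⟩
  · refine Finset.sum_lt_sum (fun w _ => ?_) ⟨v, hvW, ?_⟩
    · have := f2 w
      omega
    · have h2 := f2 v
      rw [if_pos rfl] at h2
      omega
  · intro h1
    rw [hgl, h1]
    simp
  · intro h1
    rw [hgl]
    have h2 : (((∑ i, D i v) - 1 : ℕ) : ℝ) - (((∑ i, D i v) - 1 - 1 : ℕ) : ℝ) = 1 := by
      have h3 : (∑ i, D i v) - 1 = ((∑ i, D i v) - 1 - 1) + 1 := by omega
      have h4 : (((∑ i, D i v) - 1 : ℕ) : ℝ) = ((((∑ i, D i v) - 1 - 1) + 1 : ℕ) : ℝ) := by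
        rw [← h3]
      rw [h4]
      push_cast
      ring
    rw [h2, one_mul]

end

theorem redk (K : Type) [Field K] [NumberField K] : S_REDK K := by
  intro n Δ r t hC E T hE _ hTE
  classical
  have hP : ∃ m : ℕ, ∃ D : Fin n → Idl K, (∀ i, D i ≤ E i) ∧ Tp Δ D ∧ T ≤ gl D ∧
      (∑ w ∈ sp E, ∑ i, D i w) = m := ⟨_, E, fun i => le_refl _, hE, hTE, rfl⟩
  obtain ⟨D, hDE, hTp, hTD, hpr⟩ := Nat.find_spec hP
  have hmin : ∀ D' : Fin n → Idl K, (∀ i, D' i ≤ E i) → Tp Δ D' → T ≤ gl D' →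
      (∑ w ∈ sp E, ∑ i, D i w) ≤ ∑ w ∈ sp E, ∑ i, D' i w := by
    intro D' h1 h2 h3
    rw [hpr]
    exact Nat.find_min' hP ⟨D', h1, h2, h3, rfl⟩
  have hW : sp D ⊆ sp E := by
    intro v hv
    rw [mem_sp] at hv ⊢
    intro h
    apply hv
    rw [Finset.sum_eq_zero_iff] at h ⊢
    intro i hi
    have := hDE i v
    rw [h i hi] at this
    omega
  have hSq : Sq D := by
    intro v hv
    obtain ⟨D', h1, h2, h3, h4, -⟩ := step hC hTp hW ((mem_sp D v).2 (by rw [hv]; exact one_ne_zero))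
    have h5 := hmin D' (fun i => (h1 i).trans (hDE i)) h2 (by rw [h4 hv]; exact hTD)
    omega
  refine ⟨D, hDE, hTp, hSq, hTD, fun v hv => ?_⟩
  obtain ⟨D', h1, h2, h3, -, h4⟩ := step hC hTp hW hv
  by_contra hcon
  push Not at hcon
  have h5 := hmin D' (fun i => (h1 i).trans (hDE i)) h2 (by rw [h4 (hSq v)]; exact hcon)
  omega

end Pool.Agent.N433.KG
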