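import Pool.Agent.N576.MX2.D

set_option autoImplicit false

/-! Project MX2 (helper576), part PAIRX from PAIR. -/

namespace Pool.Agent.N433.MX2P

open Pool.Agent.N576.MX2

lemma la_gt {u : ℤ} (hu : 1 ≤ u) : 1 < la u := by
  unfold la
  have h1 : (1 : ℝ) ≤ u := by exact_mod_cast hu
  have h2 := Real.sqrt_nonneg (9 * (u : ℝ) ^ 2 - 4)
  linarith

lemma De_pos {u : ℤ} (hu : 1 ≤ u) : 0 < De u := by
  unfold De
  have h1 : (1 : ℝ) ≤ u := by exact_mod_cast hu
  nlinarith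

/-- the coefficient `i + j λ⁻²` -/
noncomputable def cc (u i j : ℤ) : ℝ := i + j * (la u)⁻¹ ^ 2

lemma WW_eq {u : ℤ} (hu : 1 ≤ u) (i j : ℤ) : WW u i j = la u * cc u i j := by
  have := la_gt hu
  have h0 : la u ≠ 0 := by linarith
  unfold WW cc
  field_simp

lemma cc_bd {u i j : ℤ} {H : ℝ} (hu : 1 ≤ u) (hi : 1 ≤ i) (hj : 1 ≤ j) (hH : (i : ℝ) + j ≤ H) :
    1 ≤ cc u i j ∧ cc u i j ≤ H := by
  have h1 := la_gt hu
  have hi' : (1 : ℝ) ≤ i := by exact_mod_cast hi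
  have hj' : (1 : ℝ) ≤ j := by exact_mod_cast hj
  have h2 : (la u)⁻¹ ≤ 1 := inv_le_one_of_one_le₀ h1.le
  have h3 : 0 < (la u)⁻¹ := inv_pos.2 (by linarith)
  have h4 : (la u)⁻¹ ^ 2 ≤ 1 := pow_le_one₀ h3.le h2
  have h5 : 0 < (la u)⁻¹ ^ 2 := by positivity
  unfold cc
  constructor
  · nlinarith
  · nlinarith

lemma GG_pos {u A B i j : ℤ} {n : ℕ} (hu : 1 ≤ u) (hi : 1 ≤ i) (hj : 1 ≤ j) :
    0 < GG u A B n i j := by
  have h1 := (cc_bd hu hi hj le_rfl).1
  have h2 := De_pos hu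
  have h3 : 0 < cc u i j := by linarith
  have h4 : GG u A B n i j = 4 / De u * cc u i j * Real.exp (-2 * tt u A B n) := rfl
  rw [h4]
  positivity

lemma GG_rel {u A B i1 j1 i2 j2 : ℤ} {n1 n2 : ℕ} (hu : 1 ≤ u) (hn : n1 < n2) :
    GG u A B n1 i1 j1 * WW u i2 j2 =
      GG u A B n2 i2 j2 * (WW u i1 j1 * la u ^ (2 * (n2 - n1))) := by
  have h1 := la_gt hu
  have h0 : 0 < la u := by linarith
  have e1 : Real.exp (-2 * tt u A B n1) = Real.exp (-2 * tt u A B n2) * la u ^ (2 * (n2 - n1)) := by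
    have e2 : la u ^ (2 * (n2 - n1)) = Real.exp (((2 * (n2 - n1) : ℕ) : ℝ) * Real.log (la u)) := by
      rw [Real.exp_nat_mul, Real.exp_log h0]
    rw [e2, ← Real.exp_add]
    congr 1
    unfold tt
    push_cast [Nat.cast_sub hn.le]
    ring
  have e3 : GG u A B n1 i1 j1 = 4 / De u * cc u i1 j1 * Real.exp (-2 * tt u A B n1) := rfl
  have e4 : GG u A B n2 i2 j2 = 4 / De u * cc u i2 j2 * Real.exp (-2 * tt u A B n2) := rfl
  rw [e3, e4, e1, WW_eq hu, WW_eq hu]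
  ring

/-- the difference of the quotients -/
lemma diff_bd {W1 W2 W1' W2' L L' g1 g2 g1' g2' e : ℝ} (hg1 : 0 < g1) (hg2 : 0 < g2)
    (hg2' : 0 < g2') (he : 0 ≤ e) (he2 : e ≤ 1 / 2) (hW2' : 0 < W2')
    (hW2 : 0 < W2)
    (h1 : g1 * W2 = g2 * (W1 * L)) (h2 : g1' * W2' = g2' * (W1' * L'))
    (d1 : |g1 - g1'| ≤ g1 * e) (d2 : |g2 - g2'| ≤ g2 * e) :
    |W1 * W2' * L - W2 * W1' * L'| ≤ 4 * e * (W1 * W2' * L) := by
  have e1 : W1 * L = g1 * W2 / g2 := by
    rw [eq_div_iff hg2.ne']; linarith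
  have e2 : W1' * L' = g1' * W2' / g2' := by
    rw [eq_div_iff hg2'.ne']; linarith
  have e3 : W1 * W2' * L - W2 * W1' * L' = W2 * W2' * ((g1 * g2' - g1' * g2) / (g2 * g2')) := by
    have : W1 * W2' * L - W2 * W1' * L' = W2' * (W1 * L) - W2 * (W1' * L') := by ring
    rw [this, e1, e2]
    field_simp
  have e4 : |g1 * g2' - g1' * g2| ≤ 2 * (g1 * g2 * e) := by
    have : g1 * g2' - g1' * g2 = (g1 - g1') * g2 - g1 * (g2 - g2') := by ring
    rw [this]
    refine (abs_sub _ _).trans ?_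
    rw [abs_mul, abs_mul, abs_of_pos hg1, abs_of_pos hg2]
    have a1 : |g1 - g1'| * g2 ≤ g1 * e * g2 := mul_le_mul_of_nonneg_right d1 hg2.le
    have a2 : g1 * |g2 - g2'| ≤ g1 * (g2 * e) := mul_le_mul_of_nonneg_left d2 hg1.le
    linarith
  have e5 : g2 / 2 ≤ g2' := by
    have := (abs_le.1 d2).2
    nlinarith
  rw [e3, abs_mul, abs_of_pos (by positivity : 0 < W2 * W2'), abs_div,
    abs_of_pos (by positivity : 0 < g2 * g2')]
  have e6 : 4 * e * (W1 * W2' * L) = W2 * W2' * (4 * e * g1 / g2) := by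
    have : W1 * W2' * L = W2' * (W1 * L) := by ring
    rw [this, e1]
    field_simp
  rw [e6]
  apply mul_le_mul_of_nonneg_left _ (by positivity)
  rw [div_le_div_iff₀ (by positivity) hg2]
  calc |g1 * g2' - g1' * g2| * g2 ≤ 2 * (g1 * g2 * e) * g2 := by gcongr
    _ = 4 * e * g1 * (g2 * (g2 / 2)) := by ring
    _ ≤ 4 * e * g1 * (g2 * g2') := by gcongr

theorem pairx_of (h : PAIR) : PAIRX := by
  refine ⟨1000, by norm_num, ?_⟩
  intro u A B u' A' B' i1 j1 i2 j2 i1' j1' i2' j2' n1 n2 n1' n2' H P hR hR' hn hn' hH hPH hPu hPu' hPn hPn' p1 p2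
  have hu : 1 ≤ u := hR.1.trans hR.2.1
  have hu' : 1 ≤ u' := hR'.1.trans hR'.2.1
  have hl := la_gt hu
  have hl' := la_gt hu'
  have hl0 : 0 < la u := by linarith
  have hl0' : 0 < la u' := by linarith
  have hH0 : 0 < H := by linarith
  set a : ℕ := n2 - n1 with ha
  set b : ℕ := n2' - n1' with hb
  have har : (a : ℝ) = (n2 : ℝ) - n1 := by rw [ha, Nat.cast_sub hn.le]
  have hbr : (b : ℝ) = (n2' : ℝ) - n1' := by rw [hb, Nat.cast_sub hn'.le]
  rw [← har] at hPn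
  rw [← hbr] at hPn'
  have hlog2 : Real.log 2 ≤ Real.log H := Real.log_le_log (by norm_num) hH
  have hP2 : 1000 * Real.log 2 ≤ P := by linarith
  have hP0 : 0 < P := by
    have := Real.log_pos (by norm_num : (1 : ℝ) < 2)
    linarith
  set Z : ℝ := 10 * Real.exp (2 * P / 1000) with hZ
  have hE1 : 1 ≤ Real.exp (2 * P / 1000) := Real.one_le_exp (by positivity)
  have hZ10 : 10 ≤ Z := by linarith
  have toE : ∀ x : ℝ, 0 < x → 1000 * Real.log x ≤ 2 * P → x ≤ Real.exp (2 * P / 1000) := by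
    intro x hx h1
    rw [← Real.log_le_iff_le_exp hx]
    linarith
  have hEZ : Real.exp (2 * P / 1000) ≤ Z := by linarith
  have hHE : H ≤ Real.exp (2 * P / 1000) := toE H hH0 (by linarith)
  have hlE : la u ≤ Real.exp (2 * P / 1000) := toE _ hl0 (by linarith)
  have hlE' : la u' ≤ Real.exp (2 * P / 1000) := toE _ hl0' (by linarith)
  have hlaE : la u ^ (2 * a) ≤ Real.exp (2 * P / 1000) := by
    refine toE _ (by positivity) ?_
    rw [Real.log_pow]
    push_cast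
    linarith
  have hlbE : la u' ^ (2 * b) ≤ Real.exp (2 * P / 1000) := by
    refine toE _ (by positivity) ?_
    rw [Real.log_pow]
    push_cast
    linarith
  have c1 := cc_bd hu p1.i1 p1.j1 p1.iH
  have c2 := cc_bd hu p2.i1 p2.j1 p2.iH
  have c1' := cc_bd hu' p1.i1' p1.j1' p1.iH'
  have c2' := cc_bd hu' p2.i1' p2.j1' p2.iH'
  have hW : ∀ x y : ℝ, 1 < x → 1 ≤ y → 0 < x * y := fun x y hx hy => by positivity
  have w1 : 0 < WW u i1 j1 := by rw [WW_eq hu]; exact hW _ _ hl c1.1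
  have w2 : 0 < WW u i2 j2 := by rw [WW_eq hu]; exact hW _ _ hl c2.1
  have w1' : 0 < WW u' i1' j1' := by rw [WW_eq hu']; exact hW _ _ hl' c1'.1
  have w2' : 0 < WW u' i2' j2' := by rw [WW_eq hu']; exact hW _ _ hl' c2'.1
  have hee : Real.exp (-P) ≤ 1 / 2 := by
    have h1 : Real.exp (-P) ≤ Real.exp (-Real.log 2) := by
      apply Real.exp_le_exp.2
      have := Real.log_pos (by norm_num : (1 : ℝ) < 2)
      linarith
    rw [Real.exp_neg (Real.log 2), Real.exp_log (by norm_num)] at h1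
    linarith
  have hd := diff_bd (e := Real.exp (-P)) (GG_pos (A := A) (B := B) (n := n1) hu p1.i1 p1.j1)
    (GG_pos (A := A) (B := B) (n := n2) hu p2.i1 p2.j1)
    (GG_pos (A := A') (B := B') (n := n2') hu' p2.i1' p2.j1') (Real.exp_pos _).le hee w2' w2
    (GG_rel hu hn) (GG_rel hu' hn') p1.gap p2.gap
  rw [← ha, ← hb] at hd
  have hbound : 4 * Real.exp (-P) * (WW u i1 j1 * WW u' i2' j2' * la u ^ (2 * a)) < Z⁻¹ ^ 24 := by
    set E := Real.exp (2 * P / 1000) with hE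
    have hE0 : 0 < E := Real.exp_pos _
    have b1 : WW u i1 j1 ≤ E * E := by
      rw [WW_eq hu]
      exact mul_le_mul hlE (c1.2.trans hHE) (by linarith [c1.1]) hE0.le
    have b2 : WW u' i2' j2' ≤ E * E := by
      rw [WW_eq hu']
      exact mul_le_mul hlE' (c2'.2.trans hHE) (by linarith [c2'.1]) hE0.le
    have b3 : WW u i1 j1 * WW u' i2' j2' * la u ^ (2 * a) ≤ E ^ 5 := by
      calc WW u i1 j1 * WW u' i2' j2' * la u ^ (2 * a) ≤ (E * E) * (E * E) * E := by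
            gcongr
        _ = E ^ 5 := by ring
    have b4 : Z⁻¹ ^ 24 = (10 ^ 24)⁻¹ * (E ^ 24)⁻¹ := by
      rw [hZ, inv_pow, mul_pow, mul_inv]
    rw [b4]
    have b5 : 4 * Real.exp (-P) * E ^ 5 < (10 ^ 24)⁻¹ * (E ^ 24)⁻¹ := by
      have b6 : (4 * Real.exp (-P) * E ^ 5) * (10 ^ 24 * E ^ 24) < 1 := by
        have b7 : (4 * Real.exp (-P) * E ^ 5) * (10 ^ 24 * E ^ 24) =
            4 * 10 ^ 24 * (Real.exp (-P) * E ^ 29) := by ring
        have b8 : Real.exp (-P) * E ^ 29 = Real.exp (-P + 58 * P / 1000) := by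
          rw [hE, ← Real.exp_nat_mul, ← Real.exp_add]
          congr 1
          push_cast
          ring
        have b9 : Real.exp (-P + 58 * P / 1000) ≤ Real.exp (-(200 * Real.log 2)) := by
          apply Real.exp_le_exp.2
          linarith
        have b10 : Real.exp (-(200 * Real.log 2)) = (2 ^ 200)⁻¹ := by
          rw [Real.exp_neg]
          congr 1
          have : (200 : ℝ) * Real.log 2 = ((200 : ℕ) : ℝ) * Real.log 2 := by norm_num
          rw [this, Real.exp_nat_mul, Real.exp_log (by norm_num)]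
        rw [b7, b8]
        calc 4 * 10 ^ 24 * Real.exp (-P + 58 * P / 1000) ≤ 4 * 10 ^ 24 * (2 ^ 200)⁻¹ := by
              rw [← b10]
              gcongr
          _ < 1 := by norm_num
      rw [← mul_inv]
      rw [lt_inv_comm₀ (by positivity) (by positivity)]
      rw [← one_div, lt_div_iff₀ (by positivity), mul_comm]
      exact b6
    calc 4 * Real.exp (-P) * (WW u i1 j1 * WW u' i2' j2' * la u ^ (2 * a))
        ≤ 4 * Real.exp (-P) * E ^ 5 := by gcongr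
      _ < _ := b5
  have toZ : ∀ i j : ℤ, 1 ≤ j → (i : ℝ) + j ≤ H → (i : ℝ) ≤ Z := by
    intro i j hj hij
    have : (1 : ℝ) ≤ j := by exact_mod_cast hj
    linarith
  have toZ' : ∀ i j : ℤ, 1 ≤ i → (i : ℝ) + j ≤ H → (j : ℝ) ≤ Z := by
    intro i j hj hij
    have : (1 : ℝ) ≤ i := by exact_mod_cast hj
    linarith
  have hmain := h u u' i1 j1 i2 j2 i1' j1' i2' j2' a b Z hu hu' (by omega) (by omega)
    p1.i1 p1.j1 p2.i1 p2.j1 p1.i1' p1.j1' p2.i1' p2.j1' hZ10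
    (toZ _ _ p1.j1 p1.iH) (toZ' _ _ p1.i1 p1.iH) (toZ _ _ p2.j1 p2.iH) (toZ' _ _ p2.i1 p2.iH)
    (toZ _ _ p1.j1' p1.iH') (toZ' _ _ p1.i1' p1.iH') (toZ _ _ p2.j1' p2.iH')
    (toZ' _ _ p2.i1' p2.iH') (hlE.trans hEZ) (hlE'.trans hEZ) (hlaE.trans hEZ) (hlbE.trans hEZ)
    (lt_of_le_of_lt hd hbound)
  refine ⟨hmain.2, ?_⟩
  have heq := hmain.1
  rw [WW_eq hu, WW_eq hu, WW_eq hu', WW_eq hu'] at heq
  have heq2 : cc u i1 j1 * cc u' i2' j2' * la u ^ (2 * a) =
      cc u i2 j2 * cc u' i1' j1' * la u' ^ (2 * b) := by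
    have h1 : 0 < la u * la u' := by positivity
    refine mul_left_cancel₀ h1.ne' ?_
    calc la u * la u' * (cc u i1 j1 * cc u' i2' j2' * la u ^ (2 * a))
        = la u * cc u i1 j1 * (la u' * cc u' i2' j2') * la u ^ (2 * a) := by ring
      _ = la u * cc u i2 j2 * (la u' * cc u' i1' j1') * la u' ^ (2 * b) := heq
      _ = _ := by ring
  have q1 : 0 < cc u i1 j1 := by linarith [c1.1]
  have q2 : 0 < cc u i2 j2 := by linarith [c2.1]
  have q1' : 0 < cc u' i1' j1' := by linarith [c1'.1]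
  have q2' : 0 < cc u' i2' j2' := by linarith [c2'.1]
  have hlogs := congrArg Real.log heq2
  rw [Real.log_mul (by positivity) (by positivity), Real.log_mul q1.ne' q2'.ne',
    Real.log_mul (by positivity) (by positivity), Real.log_mul q2.ne' q1'.ne', Real.log_pow,
    Real.log_pow] at hlogs
  push_cast at hlogs
  have lb : ∀ x : ℝ, 1 ≤ x → x ≤ H → 0 ≤ Real.log x ∧ Real.log x ≤ Real.log H := fun x h1 h2 =>
    ⟨Real.log_nonneg h1, Real.log_le_log (by linarith) h2⟩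
  have l1 := lb _ c1.1 c1.2
  have l2 := lb _ c2.1 c2.2
  have l1' := lb _ c1'.1 c1'.2
  have l2' := lb _ c2'.1 c2'.2
  rw [← har, ← hbr, abs_le]
  constructor <;> nlinarith

end Pool.Agent.N433.MX2P
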