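import Pool.Agent.N709.ST.Stm

/-!
# The final theorem from a generic colouring
-/

set_option autoImplicit false

namespace Pool.Agent.N433.ST

open Pool.Agent.N709.ST

/-- the automorphisms -/
def Aut (t : ℕ) (c : Finset ℕ → ℕ) : Subgroup (Equiv.Perm ℕ) where
  carrier := {g | ∀ S S' : Finset ℕ, S.card = t → S'.card = t →
      (c (S.image g) = c (S'.image g) ↔ c S = c S')}
  mul_mem' := by
    intro a b ha hb S S' hS hS'
    have e : ∀ S : Finset ℕ, S.image (a * b : Equiv.Perm ℕ) = (S.image b).image a := by
      intro S
      rw [Finset.image_image]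
      rfl
    rw [e, e, ha _ _ (by rw [Finset.card_image_of_injective _ b.injective, hS])
      (by rw [Finset.card_image_of_injective _ b.injective, hS']), hb _ _ hS hS']
  one_mem' := by
    intro S S' _ _
    have e : ∀ S : Finset ℕ, S.image (1 : Equiv.Perm ℕ) = S := by
      intro S
      rw [Equiv.Perm.coe_one, Finset.image_id]
    rw [e, e]
  inv_mem' := by
    intro a ha S S' hS hS'
    have e : ∀ S : Finset ℕ, (S.image (a⁻¹ : Equiv.Perm ℕ)).image a = S := by
      intro S
      rw [Finset.image_image]
      have : (a : ℕ → ℕ) ∘ (a⁻¹ : Equiv.Perm ℕ) = id := by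
        funext n
        simp
      rw [this, Finset.image_id]
    have h := ha (S.image (a⁻¹ : Equiv.Perm ℕ)) (S'.image (a⁻¹ : Equiv.Perm ℕ))
      (by rw [Finset.card_image_of_injective _ (a⁻¹).injective, hS])
      (by rw [Finset.card_image_of_injective _ (a⁻¹).injective, hS'])
    rw [e, e] at h
    exact h.symm

theorem mem_Aut {t : ℕ} {c : Finset ℕ → ℕ} {g : Equiv.Perm ℕ} : g ∈ Aut t c ↔
    ∀ S S' : Finset ℕ, S.card = t → S'.card = t →
      (c (S.image g) = c (S'.image g) ↔ c S = c S') := Iff.rfl

/-- different sets of the same colour have fewer than `s` common elements -/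
theorem inter_lt {s t : ℕ} (hst : s < t) {c : Finset ℕ → ℕ} (hc : Gen s t c) {S T : Finset ℕ}
    (hS : S.card = t) (hT : T.card = t) (hne : S ≠ T) (h : c S = c T) : (S ∩ T).card < s := by
  have h1 := hc.1 (S ∪ T)
  have h2 := Finset.card_union_add_card_inter S T
  rw [hS, hT] at h2
  have h3 : (S ∩ T).card < t := by
    have h4 : S ∩ T ⊂ S := by
      refine Finset.ssubset_iff_subset_ne.2 ⟨Finset.inter_subset_left, fun h5 => hne ?_⟩
      exact Finset.eq_of_subset_of_card_le (Finset.inter_eq_left.1 h5) (by rw [hS, hT])
    have h5 := Finset.card_lt_card h4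
    rwa [hS] at h5
  have h4 : (cs t c (S ∪ T)).card < (S ∪ T).card.choose t := by
    unfold cs
    rw [← Finset.card_powersetCard]
    refine lt_of_le_of_ne Finset.card_image_le fun h5 => hne ?_
    have h6 := Finset.card_image_iff.1 h5
    exact h6 (Finset.mem_coe.2 (Finset.mem_powersetCard.2 ⟨Finset.subset_union_left, hS⟩))
      (Finset.mem_coe.2 (Finset.mem_powersetCard.2 ⟨Finset.subset_union_right, hT⟩)) h
  have h5 : min ((S ∪ T).card : ℤ) ((t : ℤ) + 1) = (t : ℤ) + 1 := by
    apply min_eq_right
    omega
  rw [h5] at h1
  unfold dl at h1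
  have h6 : ((t : ℤ) - s) * 1 ≤
      ((t : ℤ) - s) * (((S ∪ T).card.choose t : ℤ) - ((cs t c (S ∪ T)).card : ℤ)) := by
    apply mul_le_mul_of_nonneg_left _ (by omega)
    have : ((cs t c (S ∪ T)).card : ℤ) < ((S ∪ T).card.choose t : ℤ) := by exact_mod_cast h4
    omega
  omega

theorem inj_of_card {s t : ℕ} (hst : s < t) {c : Finset ℕ → ℕ} (hc : Gen s t c) {C : Finset ℕ}
    (hC : C.card = t + 1) {S T : Finset ℕ} (hSC : S ⊆ C) (hTC : T ⊆ C) (hS : S.card = t)
    (hT : T.card = t) (h : c S = c T) : S = T := by
  by_contra hne
  have h1 := inter_lt hst hc hS hT hne h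
  have h2 := Finset.card_union_add_card_inter S T
  have h3 := Finset.card_le_card (Finset.union_subset hSC hTC)
  omega

theorem strM {s t : ℕ} (hst : s < t) {c : Finset ℕ → ℕ} (hc : Gen s t c) {C : Finset ℕ}
    (hC : C.card = t + 1) : StrM s t c C := by
  intro Y hY
  have h1 := hc.1 Y
  have h2 := Finset.card_le_card hY
  have h3 : min (Y.card : ℤ) ((t : ℤ) + 1) = (t : ℤ) + 1 := by
    apply min_eq_right
    omega
  rw [h3] at h1
  refine le_trans ?_ h1
  unfold dl
  have h4 : (cs t c C).card ≤ C.card.choose t := by
    unfold cs
    rw [← Finset.card_powersetCard]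
    exact Finset.card_image_le
  have h5 : 0 ≤ ((t : ℤ) - s) * ((C.card.choose t : ℤ) - ((cs t c C).card : ℤ)) := by
    apply mul_nonneg (by omega)
    have : ((cs t c C).card : ℤ) ≤ (C.card.choose t : ℤ) := by exact_mod_cast h4
    omega
  rw [hC] at h5 ⊢
  push_cast at h5 ⊢
  omega

theorem trans {s t : ℕ} (hst : s < t) {c : Finset ℕ → ℕ} (hc : Gen s t c) (hH : Homog)
    (C : Finset ℕ) (p : ℕ → ℕ) (hC : C.card = t + 1) (hp : (C.image p).card = t + 1) :
    ∃ g ∈ Aut t c, ∀ x ∈ C, g x = p x := by
  have hinj : Set.InjOn p (C : Set ℕ) := Finset.card_image_iff.1 (by rw [hp, hC])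
  have hiso : Iso t c c p C := by
    refine ⟨hinj, ?_⟩
    intro S hS S' hS' hSc hSc'
    have e1 : (S.image p).card = t := by
      rw [Finset.card_image_of_injOn (hinj.mono (Finset.coe_subset.2 hS)), hSc]
    have e2 : (S'.image p).card = t := by
      rw [Finset.card_image_of_injOn (hinj.mono (Finset.coe_subset.2 hS')), hSc']
    constructor
    · intro h
      have h1 := inj_of_card hst hc hp (Finset.image_subset_image hS)
        (Finset.image_subset_image hS') e1 e2 h
      have h2 : S = S' := by
        apply Finset.coe_injective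
        apply (hinj.image_eq_image_iff (Finset.coe_subset.2 hS) (Finset.coe_subset.2 hS')).1
        rw [← Finset.coe_image, ← Finset.coe_image, h1]
      rw [h2]
    · intro h
      rw [inj_of_card hst hc hC hS hS' hSc hSc' h]
  obtain ⟨g, hg1, hg2⟩ := hH s t hst c hc C p (strM hst hc hC) (strM hst hc hp) hiso
  exact ⟨g, hg2, hg1⟩

theorem exists_map (A B : Finset ℕ) (h : A.card = B.card) : ∃ f : ℕ → ℕ, A.image f = B := by
  classical
  let e := Finset.equivOfCardEq h
  refine ⟨fun n => if h : n ∈ A then (e ⟨n, h⟩ : ℕ) else 0, ?_⟩
  ext m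
  rw [Finset.mem_image]
  constructor
  · rintro ⟨n, hn, rfl⟩
    rw [dif_pos hn]
    exact (e ⟨n, hn⟩).2
  · intro hm
    refine ⟨(e.symm ⟨m, hm⟩ : ℕ), (e.symm ⟨m, hm⟩).2, ?_⟩
    rw [dif_pos (e.symm ⟨m, hm⟩).2]
    simp

theorem mainof : MainOf := by
  classical
  intro hGE hH s t hs hst
  obtain ⟨c, hc⟩ := hGE s t hs hst
  refine ⟨Aut t c, ?_, ?_⟩
  · intro x y hx hy
    have hp : ∀ i, Function.extend x y 0 (x i) = y i := fun i => hx.extend_apply _ _ _
    have e1 : (Finset.univ.image x).card = t + 1 := by
      rw [Finset.card_image_of_injective _ hx, Finset.card_univ, Fintype.card_fin]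
    have e2 : ((Finset.univ.image x).image (Function.extend x y 0)).card = t + 1 := by
      rw [Finset.image_image]
      have : Function.extend x y 0 ∘ x = y := funext hp
      rw [this, Finset.card_image_of_injective _ hy, Finset.card_univ, Fintype.card_fin]
    obtain ⟨g, hg, h⟩ := trans hst hc hH _ _ e1 e2
    refine ⟨g, hg, fun i => ?_⟩
    rw [h _ (Finset.mem_image_of_mem _ (Finset.mem_univ i)), hp]
  · obtain ⟨S0, S1, hS0, hS1, hinter, hne, hcol⟩ := hc.2.2
    refine ⟨{S | S.card = t ∧ c S = c S0}, fun S hS => hS.1, ?_, ?_⟩
    · intro g hg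
      rw [mem_Aut] at hg
      by_cases hd : Disjoint ((fun S : Finset ℕ => S.image g) '' {S | S.card = t ∧ c S = c S0})
        {S | S.card = t ∧ c S = c S0}
      · exact Or.inr hd
      · left
        rw [Set.not_disjoint_iff] at hd
        obtain ⟨_, ⟨S, hS, rfl⟩, hgS⟩ := hd
        have hgS2 : c (S.image g) = c S0 := hgS.2
        ext T
        constructor
        · rintro ⟨S', hS', rfl⟩
          refine ⟨?_, ?_⟩
          · show (S'.image g).card = t
            rw [Finset.card_image_of_injective _ g.injective, hS'.1]
          · show c (S'.image g) = c S0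
            rw [← hgS2, hg S' S hS'.1 hS.1, hS'.2, hS.2]
        · intro hT
          have e : (T.image g.symm).image g = T := by
            rw [Finset.image_image]
            have : (g : ℕ → ℕ) ∘ g.symm = id := by
              funext n
              simp
            rw [this, Finset.image_id]
          have ec : (T.image g.symm).card = t := by
            rw [Finset.card_image_of_injective _ g.symm.injective, hT.1]
          refine ⟨T.image g.symm, ⟨ec, ?_⟩, e⟩
          have h1 := hg (T.image g.symm) S ec hS.1
          rw [e, hgS2, hT.2] at h1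
          rw [h1.1 rfl, hS.2]
    · intro U hU
      -- existence
      have hex : ∃ T : Finset ℕ, (T.card = t ∧ c T = c S0) ∧ U ⊆ T := by
        by_contra hno
        push Not at hno
        have hbd : ∀ j, ∃ T : Finset ℕ, (T.card = t ∧ c T = c S0) ∧ j ≤ (T ∩ U).card := by
          intro j
          induction j with
          | zero => exact ⟨S0, ⟨hS0, rfl⟩, Nat.zero_le _⟩
          | succ j ih =>
            obtain ⟨T, hT, hj⟩ := ih
            obtain ⟨x, hxU, hxT⟩ := Finset.not_subset.1 (hno T hT)
            have hlt : (T ∩ U).card < s := by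
              have h1 : T ∩ U ⊂ U := by
                refine Finset.ssubset_iff_subset_ne.2 ⟨Finset.inter_subset_right, fun h5 => ?_⟩
                exact hno T hT (Finset.inter_eq_right.1 h5)
              have h2 := Finset.card_lt_card h1
              rwa [hU] at h2
            obtain ⟨D, hD1, hD2, hD3⟩ := Finset.exists_subsuperset_card_eq
              (Finset.inter_subset_left : T ∩ U ⊆ T) (by omega : (T ∩ U).card ≤ s - 1)
              (by rw [hT.1]; omega)
            obtain ⟨x0, hx1, hx0⟩ : ∃ x0, x0 ∈ S1 ∧ x0 ∉ S0 := by
              by_contra hh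
              push Not at hh
              exact hne (Finset.eq_of_subset_of_card_le hh (by rw [hS0, hS1])).symm
            obtain ⟨f1, hf1⟩ := exists_map (S0 ∩ S1) D (by rw [hinter, hD3])
            obtain ⟨f2, hf2⟩ := exists_map (S0 \ S1) (T \ D) (by
              have h3 := Finset.card_sdiff_add_card_inter S0 S1
              have h4 := Finset.card_sdiff_add_card_inter T D
              rw [Finset.inter_eq_right.2 hD2] at h4
              rw [hS0] at h3
              rw [hT.1] at h4
              omega)
            let p : ℕ → ℕ := fun n => if n = x0 then x else if n ∈ S1 then f1 n else f2 n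
            have hp0 : p x0 = x := if_pos rfl
            have hp1 : (S0 ∩ S1).image p = D := by
              rw [← hf1]
              refine Finset.image_congr fun n hn => ?_
              have hn' := Finset.mem_inter.1 (Finset.mem_coe.1 hn)
              have h3 : n ≠ x0 := fun h => hx0 (h ▸ hn'.1)
              show (if n = x0 then x else if n ∈ S1 then f1 n else f2 n) = f1 n
              rw [if_neg h3, if_pos hn'.2]
            have hp2 : (S0 \ S1).image p = T \ D := by
              rw [← hf2]
              refine Finset.image_congr fun n hn => ?_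
              have hn' := Finset.mem_sdiff.1 (Finset.mem_coe.1 hn)
              have h3 : n ≠ x0 := fun h => hx0 (h ▸ hn'.1)
              show (if n = x0 then x else if n ∈ S1 then f1 n else f2 n) = f2 n
              rw [if_neg h3, if_neg hn'.2]
            have hpS : S0.image p = T := by
              rw [← Finset.sdiff_union_inter S0 S1, Finset.image_union, hp1, hp2,
                Finset.sdiff_union_of_subset hD2]
            have e1 : (insert x0 S0).card = t + 1 := by
              rw [Finset.card_insert_of_notMem hx0, hS0]
            have e2 : ((insert x0 S0).image p).card = t + 1 := by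
              rw [Finset.image_insert, hpS, hp0, Finset.card_insert_of_notMem hxT, hT.1]
            obtain ⟨g, hg, h⟩ := trans hst hc hH _ _ e1 e2
            rw [mem_Aut] at hg
            have hgS : S0.image g = T := by
              rw [← hpS]
              exact Finset.image_congr fun n hn => h n (Finset.mem_insert_of_mem hn)
            have hg1 : (S0 ∩ S1).image g = D := by
              rw [← hp1]
              exact Finset.image_congr fun n hn => h n (Finset.mem_insert_of_mem
                (Finset.mem_inter.1 (Finset.mem_coe.1 hn)).1)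
            have hgx : g x0 = x := by rw [h x0 (Finset.mem_insert_self _ _), hp0]
            refine ⟨S1.image g, ⟨?_, ?_⟩, ?_⟩
            · rw [Finset.card_image_of_injective _ g.injective, hS1]
            · rw [(hg S1 S0 hS1 hS0).2 hcol.symm, hgS, hT.2]
            · have h3 : insert x (T ∩ U) ⊆ S1.image g ∩ U := by
                intro n hn
                rw [Finset.mem_insert] at hn
                rw [Finset.mem_inter]
                rcases hn with rfl | hn
                · exact ⟨by rw [← hgx]; exact Finset.mem_image_of_mem _ hx1, hxU⟩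
                · refine ⟨?_, (Finset.mem_inter.1 hn).2⟩
                  have h4 := hD1 hn
                  rw [← hg1] at h4
                  exact Finset.image_subset_image Finset.inter_subset_right h4
              have h4 := Finset.card_le_card h3
              rw [Finset.card_insert_of_notMem fun h5 => hxT (Finset.mem_inter.1 h5).1] at h4
              omega
        obtain ⟨T, hT, hj⟩ := hbd (U.card + 1)
        have := Finset.card_le_card (Finset.inter_subset_right : T ∩ U ⊆ U)
        omega
      obtain ⟨T, hT, hUT⟩ := hex
      refine ⟨T, ⟨hT, hUT⟩, ?_⟩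
      rintro T' ⟨hT', hUT'⟩
      by_contra hne'
      have h1 := inter_lt hst hc hT'.1 hT.1 hne' (by rw [hT'.2, hT.2])
      have h2 := Finset.card_le_card (Finset.subset_inter hUT' hUT)
      omega

end Pool.Agent.N433.ST
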